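import Pool.Agent.W398.SG.Stm

/-!
# SG-ISO (MP_9a3597_al): equivalent extension data give isomorphic topological groups
-/

namespace Pool.Agent.W148.SG

open Pool.Agent.W37.SG Pool.Agent.W398.SG
open scoped Matrix

universe u

theorem cont_of_fibers {R R' : Type u} {G : Type} [TopologicalSpace R] [TopologicalSpace R']
    (π : R → G) (hπ : ∀ g, IsOpen (π ⁻¹' {g})) (F : G → R → R') (hF : ∀ g, Continuous (F g)) :
    Continuous (fun r => F (π r) r) := by
  rw [continuous_iff_continuousAt]
  intro r
  have h1 : (fun x => F (π x) x) =ᶠ[nhds r] F (π r) := by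
    have h2 : π ⁻¹' {π r} ∈ nhds r := (hπ (π r)).mem_nhds rfl
    filter_upwards [h2] with x hx
    have hx' : π x = π r := hx
    rw [hx']
  exact ((hF (π r)).continuousAt).congr h1.symm

theorem main : S_ISO.{u} := by
  intro p _ d G _ R R' _ _ _ _ ρ ρ' f f' hR hR' A B c hAB hBA hAρ hf
  obtain ⟨a, π, b, ha, hπ, hb, hba, hab, hπb, hπm, ham⟩ := hR
  obtain ⟨a', π', b', ha', hπ', hb', hba', hab', hπb', hπm', ham'⟩ := hR'
  have ext' : ∀ s t : R', a' s = a' t → π' s = π' t → s = t := by
    intro s t h1 h2
    rw [← hba' s, ← hba' t, h1, h2]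
  have hA : Continuous (fun v : Lat p d => A *ᵥ v) :=
    Continuous.matrix_mulVec continuous_const continuous_id
  have hB : Continuous (fun v : Lat p d => B *ᵥ v) :=
    Continuous.matrix_mulVec continuous_const continuous_id
  let e : R ≃* R' :=
    { toFun := fun r => b' (A *ᵥ a r + c (π r)) (π r)
      invFun := fun s => b (B *ᵥ (a' s - c (π' s))) (π' s)
      left_inv := by
        intro r
        simp only [hab', hπb', add_sub_cancel_right, Matrix.mulVec_mulVec, hBA, Matrix.one_mulVec,
          hba]
      right_inv := by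
        intro s
        simp only [hab, hπb, Matrix.mulVec_mulVec, hAB, Matrix.one_mulVec, sub_add_cancel, hba']
      map_mul' := by
        intro r s
        apply ext'
        · simp only [hab', hπb', ham', ham, hπm]
          have h1 := hf (π r) (π s)
          have h2 : A *ᵥ (ρ (π r) *ᵥ a s) = ρ' (π r) *ᵥ (A *ᵥ a s) := by
            rw [Matrix.mulVec_mulVec, Matrix.mulVec_mulVec, hAρ]
          simp only [Matrix.mulVec_add, h2]
          rw [add_assoc, h1]
          abel
        · simp only [hπb', hπm', hπm] }
  refine ⟨{ e with continuous_toFun := ?_, continuous_invFun := ?_ }⟩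
  · exact cont_of_fibers π hπ (fun g r => b' (A *ᵥ a r + c g) g)
      (fun g => (hb' g).comp ((hA.comp ha).add continuous_const))
  · exact cont_of_fibers π' hπ' (fun g s => b (B *ᵥ (a' s - c g)) g)
      (fun g => (hb g).comp (hB.comp (ha'.sub continuous_const)))

end Pool.Agent.W148.SG
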